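import Pool.Agent.V11266.GreedyPack

/-! # Packing arbitrary families of trees into `K_{2n+1}`: half of all the edges

A finite family of trees, each of order at most `n + 1`, packs into `K_{2n+1}` if for every `t` its
trees with at least `t` edges have together fewer than `(2n+1)(2n+1-t)/2 + t` edges; in particular
if it has at most `(n+1)(2n+1)/2 + n - 1/2` edges in total.  No restriction on `n` or on the
maximum degrees of the trees. -/

set_option autoImplicit false

namespace Pool.Agent.Results.MP_80c395_co.HalfOfAllEdges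

open Finset

/-- The trees `T i` (on `m i` vertices, `i < k`) pack into the complete graph on `N` vertices:
they can be placed injectively so that no edge of `K_N` is used by two different trees. -/
def Packs (N k : ℕ) (m : Fin k → ℕ) (T : (i : Fin k) → SimpleGraph (Fin (m i))) : Prop :=
  ∃ f : (i : Fin k) → (Fin (m i) ↪ Fin N),
    ∀ i j : Fin k, i ≠ j → ∀ (a b : Fin (m i)) (c d : Fin (m j)),
      (T i).Adj a b → (T j).Adj c d → s(f i a, f i b) ≠ s(f j c, f j d)

/-- (1) A finite family of trees of order at most `n + 1` packs into `K_{2n+1}` whenever, for each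
of its trees, of `t` edges say, the trees of the family with at least `t` edges have together
fewer than `(2n+1)(2n+1-t)/2 + t` edges.  (2) In particular it packs whenever it has altogether
fewer than `(2n+1)(n+1)/2 + n` edges. -/
theorem result :
    (∀ (n k : ℕ) (m : Fin k → ℕ) (T : (i : Fin k) → SimpleGraph (Fin (m i))),
      (∀ i, (T i).IsTree) → (∀ i, m i ≤ n + 1) →
      (∀ t, 1 ≤ t → t ≤ n → (∃ j, (T j).edgeSet.ncard = t) →
        2 * ∑ i with t ≤ (T i).edgeSet.ncard, (T i).edgeSet.ncard <
          (2 * n + 1) * (2 * n + 1 - t) + 2 * t) →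
      Packs (2 * n + 1) k m T) ∧
    (∀ (n k : ℕ) (m : Fin k → ℕ) (T : (i : Fin k) → SimpleGraph (Fin (m i))),
      (∀ i, (T i).IsTree) → (∀ i, m i ≤ n + 1) →
      2 * ∑ i, (T i).edgeSet.ncard < (2 * n + 1) * (n + 1) + 2 * n →
      Packs (2 * n + 1) k m T) := by
  classical
  have main : ∀ (n k : ℕ) (m : Fin k → ℕ) (T : (i : Fin k) → SimpleGraph (Fin (m i))),
      (∀ i, (T i).IsTree) → (∀ i, m i ≤ n + 1) →
      (∀ t, 1 ≤ t → t ≤ n → (∃ j, (T j).edgeSet.ncard = t) →
        2 * ∑ i with t ≤ (T i).edgeSet.ncard, (T i).edgeSet.ncard <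
          (2 * n + 1) * (2 * n + 1 - t) + 2 * t) →
      Packs (2 * n + 1) k m T := by
    intro n k m T hT hm h
    have hcard : ∀ i, (T i).edgeSet.ncard = m i - 1 := by
      intro i
      have h2 : (T i).edgeFinset.card + 1 = Fintype.card (Fin (m i)) := (hT i).card_edgeFinset
      have h3 : (T i).edgeSet.ncard = (T i).edgeFinset.card := by
        rw [← SimpleGraph.coe_edgeFinset, Set.ncard_coe_finset]
      rw [Fintype.card_fin] at h2
      omega
    simp only [hcard] at h
    obtain ⟨f, f1, f2⟩ := V11266.GreedyPack.pack_complete (2 * n + 1) (by omega)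
      (Finset.univ : Finset (Fin k)) m T (fun i _ => hT i) (by
        intro j _ h2
        have h3 := h (m j - 1) (by omega) (by have := hm j; omega) ⟨j, rfl⟩
        have h4 : (Finset.univ.filter (fun i : Fin k => m j - 1 ≤ m i - 1)) =
            Finset.univ.filter (fun i : Fin k => m j ≤ m i) := by
          apply Finset.filter_congr
          intro i _
          constructor
          · intro h5; omega
          · intro h5; omega
        rw [h4] at h3
        exact h3)
    exact ⟨fun i => ⟨f i, f1 i (Finset.mem_univ i)⟩, fun i j hij a b c d hab hcd =>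
      f2 i (Finset.mem_univ i) j (Finset.mem_univ j) hij a b c d hab hcd⟩
  refine ⟨main, ?_⟩
  intro n k m T hT hm h
  apply main n k m T hT hm
  intro t ht1 htn _
  have h1 : ∑ i with t ≤ (T i).edgeSet.ncard, (T i).edgeSet.ncard ≤
      ∑ i, (T i).edgeSet.ncard :=
    Finset.sum_le_sum_of_subset (Finset.filter_subset _ _)
  obtain ⟨r, hr⟩ : ∃ r, n = t + r := ⟨n - t, by omega⟩
  have e1 : 2 * n + 1 - t = n + 1 + r := by omega
  rw [e1]
  have e2 : (2 * n + 1) * (n + 1 + r) = (2 * n + 1) * (n + 1) + (2 * n + 1) * r := by ring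
  have e3 : 2 * r ≤ (2 * n + 1) * r := Nat.mul_le_mul_right r (by omega)
  omega

end Pool.Agent.Results.MP_80c395_co.HalfOfAllEdges
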